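import Pool.Agent.Lib.helper3.SExt

namespace Pool.Agent.Results.MP_0279ce_an.Semisimple

/-- `A²`, the linear span of all products. -/
def sq (A : Type) [NonUnitalNormedRing A] [NormedSpace ℂ A] : Submodule ℂ A :=
  Submodule.span ℂ {x | ∃ a b : A, x = a * b}

/-- Property (S). -/
def PropS (A : Type) [NonUnitalNormedRing A] [NormedSpace ℂ A] : Prop :=
  ∃ C : ℝ, 0 < C ∧ ∀ x ∈ sq A, ∃ (n : ℕ) (a b : Fin n → A),
    x = ∑ i, a i * b i ∧ ∑ i, ‖a i‖ * ‖b i‖ ≤ C * ‖x‖

/-- The Jacobson radical of `A`: the elements of `A` in the Jacobson radical of the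
unitization. -/
def rad (A : Type) [NonUnitalNormedRing A] [NormedSpace ℂ A] [IsScalarTower ℂ A A]
    [SMulCommClass ℂ A A] : Set A :=
  {a | (a : Unitization ℂ A) ∈ Ideal.jacobson (⊥ : Ideal (Unitization ℂ A))}

open Pool.Agent.Lib.helper3 in
/-- A semisimple Banach algebra with `A = A²` that fails property (S). -/
theorem result : ∃ (A : Type) (_ : NonUnitalNormedRing A) (_ : NormedSpace ℂ A)
    (_ : IsScalarTower ℂ A A) (_ : SMulCommClass ℂ A A) (_ : CompleteSpace A),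
    rad A = {0} ∧ sq A = ⊤ ∧ ¬ PropS A := by
  obtain ⟨d, f, h1, h2, h3⟩ := SX.base
  have h4 : sq (SX.Ex (SX.reg (PS.Alg d))) = ⊤ := SX.sq_top _ h1
  refine ⟨SX.Ex (SX.reg (PS.Alg d)), inferInstance, inferInstance, inferInstance, inferInstance,
    inferInstance, ?_, h4, fun ⟨C, hC, h⟩ => SX.not_S _ f h2 h3 C hC fun x => h x ?_⟩
  · refine Set.eq_singleton_iff_unique_mem.2 ⟨?_, fun p hp => SX.semisimple _ p hp⟩
    rw [rad, Set.mem_setOf_eq, Unitization.inr_zero]
    exact Submodule.zero_mem _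
  · rw [h4]
    exact Submodule.mem_top

end Pool.Agent.Results.MP_0279ce_an.Semisimple
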